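import Pool.Agent.H.MP_797cb5_co.B

namespace Pool.Agent.Results.MP_797cb5_co.Counter

open Pool.Agent.H.MP_797cb5_co

theorem result : ∃ (S : Finset (ℝ × ℝ)) (T T' : Set (Sym2 (ℝ × ℝ))),
    IsTri S T ∧ IsTri S T' ∧ (∃ l P, Shortest S T T' l P) ∧
      ∀ l P, Shortest S T T' l P → ∃ i, 0 < i ∧ i < l ∧ ∃ e ∈ T ∩ T', e ∉ P i := by
  classical
  refine ⟨SS, TM (ms.getD 0 0), TM (ms.getD 11 0), tri_TM (good_ms 0 (by omega)),
    tri_TM (good_ms 11 (by omega)), ?_, fun l P hP => ?_⟩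
  · have h : ∃ l, ∃ P, IsPath SS (TM (ms.getD 0 0)) (TM (ms.getD 11 0)) l P := ⟨_, _, path11⟩
    obtain ⟨P, hP⟩ := Nat.find_spec h
    exact ⟨_, P, hP, fun l' P' h' => Nat.find_min' h ⟨P', h'⟩⟩
  · by_contra hc
    push Not at hc
    have h1 := lower hP.1 fun i h0 hi e he => hc i h0 hi e he
    have h2 := hP.2 _ _ path11
    omega

end Pool.Agent.Results.MP_797cb5_co.Counter
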